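import Pool.Agent.Y143.Extreme
import Pool.Agent.Y143.Rigid

/-!
# The weight filtration and the monodromy filtration of log schemes over log points
-/

namespace Pool.Agent.Y144.LMW

open Module Pool.Agent.Y143

universe u v

variable {Ω : Type u} [Field Ω] [CharZero Ω] {Γ : Type} {n q : ℕ}

/-- `N ^ e` induces an isomorphism of `P_(m + e) / P_(m + e - 1)` with
`P_(m - e) / P_(m - e - 1)`. -/
def IsoAt {V : Type v} [AddCommGroup V] [Module Ω V] (N : Module.End Ω V)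
    (P : ℤ → Submodule Ω V) (m e : ℕ) : Prop :=
  (∀ x ∈ P ((m : ℤ) + e), (N ^ e) x ∈ P ((m : ℤ) - e - 1) → x ∈ P ((m : ℤ) + e - 1)) ∧
    ∀ y ∈ P ((m : ℤ) - e), ∃ x ∈ P ((m : ℤ) + e), y - (N ^ e) x ∈ P ((m : ℤ) - e - 1)

/-- Every monodromy filtration `M` of `N` satisfies `M_j = P_(m + j)` for all `j ≥ e - 1` and for all
`j ≤ - e`. -/
def AgreeFrom {V : Type v} [AddCommGroup V] [Module Ω V] (N : Module.End Ω V)
    (P : ℤ → Submodule Ω V) (m e : ℕ) : Prop :=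
  ∀ M : ℤ → Submodule Ω V, IsMonodromyFiltration N M → ∀ j : ℤ,
    (e : ℤ) - 1 ≤ j ∨ j ≤ -e → M j = P ((m : ℤ) + j)

/-- Either `e ≥ min(m, 2 n - m)`; or `m = n` and `e ≥ n - 1`; or `e ≥ min(m, 2 n - m) - 1` and the terms
`E_2` satisfy hard Lefschetz. -/
def InRange (X : StrataData.{u, v} Ω Γ) (n m e : ℕ) : Prop :=
  min (m : ℤ) (2 * n - m) ≤ e ∨ (m = n ∧ n ≤ e + 1) ∨
    (X.HasHardLefschetz n ∧ min (m : ℤ) (2 * n - m) ≤ e + 1)

/-- the range of the theorem without hard Lefschetz -/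
def Range₀ (n m e : ℕ) : Prop := min (m : ℤ) (2 * n - m) ≤ e ∨ (m = n ∧ n ≤ e + 1)

/-- the range of the theorem with hard Lefschetz -/
def Range₁ (n m e : ℕ) : Prop := min (m : ℤ) (2 * n - m) ≤ e + 1

theorem key₀ (X : SemistableModel.{u, v} Ω Γ n q) (A : DivisorClasses X.toSpecialFibre)
    (m e : ℕ) (he : 1 ≤ e) (h : Range₀ n m e) :
    NInj X.diff X.tot e ((m : ℤ) - n) ∧ NSurj X.diff X.tot e ((m : ℤ) - n) := by
  have he' : (1 : ℤ) ≤ e := by exact_mod_cast he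
  rcases h with h | ⟨rfl, h⟩
  · rcases le_total ((m : ℤ) - n) 0 with h1 | h1
    · exact ⟨A.nInj_one e he' _ (by omega), A.nSurj_zero e he' _ (by omega)⟩
    · exact X.baseComplex.good_flip e he' _ (A.nInj_one e he' _ (by omega))
        (A.nSurj_zero e he' _ (by omega))
  · have h1 : NInj X.diff X.tot e 0 := A.nInj_one e he' _ (by omega)
    rw [sub_self]
    exact ⟨h1, X.baseComplex.good_mid e he' h1⟩

theorem key₁ (X : Degeneration.{u, v} Ω Γ n q) (A : DivisorClasses X.toSpecialFibre)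
    (m e : ℕ) (he : 1 ≤ e) (h : Range₁ n m e) :
    NInj X.diff X.tot e ((m : ℤ) - n) ∧ NSurj X.diff X.tot e ((m : ℤ) - n) := by
  have he' : (1 : ℤ) ≤ e := by exact_mod_cast he
  unfold Range₁ at h
  rcases le_total ((m : ℤ) - n) 0 with h0 | h0
  · have h1 := A.nInj_one e he' ((m : ℤ) - n) (by omega)
    have h2 := X.lefDual.good_of_inj X.lefComplex X.lefComplex e he' _ h1 h1
    exact ⟨h2.inj, h2.surj⟩
  · obtain ⟨k, hk⟩ : ∃ k : ℕ, (m : ℤ) - n = k := ⟨((m : ℤ) - n).toNat, by omega⟩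
    have h1 := A.nInj_one e he' (-(k : ℤ)) (by omega)
    have h2 := X.lefDual.good_of_inj X.lefComplex X.lefComplex e he' _ h1 h1
    rw [hk]
    exact ⟨X.lefComplex.nInj_pos e he' k h2.inj, X.lefComplex.nSurj_pos e he' k h2.surj⟩

theorem isoAt_of (X : SemistableModel.{u, v} Ω Γ n q) (m e : ℕ)
    (h : NInj X.diff X.tot e ((m : ℤ) - n) ∧ NSurj X.diff X.tot e ((m : ℤ) - n)) :
    IsoAt (X.N m) (X.W m) m e :=
  ⟨fun _ hx hN => X.inj_level m e h.1 hx hN, fun _ hy => X.surj_level m e h.2 hy⟩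

/-- The monodromy filtration and the weight filtration coincide in the extreme degrees. -/
theorem compare_of (X : SemistableModel.{u, v} Ω Γ n q) (m e : ℕ) (he : 1 ≤ e)
    (h : ∀ a : ℕ, e ≤ a → NInj X.diff X.tot a ((m : ℤ) - n) ∧ NSurj X.diff X.tot a ((m : ℤ) - n))
    {M : ℤ → Submodule Ω (X.V m)} (hM : IsMonodromyFiltration (X.N m) M) (j : ℤ)
    (hj : (e : ℤ) - 1 ≤ j ∨ j ≤ -e) : M j = X.W m ((m : ℤ) + j) := by
  have hC := X.compare m hM e he (fun a ha => (h a ha).1) (fun a ha => (h a ha).2)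
  rcases hj with hj | hj
  · obtain ⟨a, ha⟩ : ∃ a : ℕ, j = (a : ℤ) - 1 := ⟨(j + 1).toNat, by omega⟩
    have h1 := (hC a (by omega)).1
    rw [ha, h1]
    congr 1
    ring
  · obtain ⟨a, ha⟩ : ∃ a : ℕ, j = -(a : ℤ) := ⟨(-j).toNat, by omega⟩
    have h1 := (hC a (by omega)).2
    rw [ha, h1]
    congr 1

theorem extreme₀ (X : SemistableModel.{u, v} Ω Γ n q) (A : DivisorClasses X.toSpecialFibre)
    (m e : ℕ) (he : 1 ≤ e) (h : Range₀ n m e) :
    IsoAt (X.N m) (X.W m) m e ∧ AgreeFrom (X.N m) (X.W m) m e := by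
  refine ⟨isoAt_of X m e (key₀ X A m e he h), fun M hM j hj => ?_⟩
  refine compare_of X m e he (fun a ha => key₀ X A m a (he.trans ha) ?_) hM j hj
  rcases h with h | ⟨h1, h2⟩
  · left; omega
  · right; exact ⟨h1, by omega⟩

theorem extreme₁ (X : Degeneration.{u, v} Ω Γ n q) (A : DivisorClasses X.toSpecialFibre)
    (m e : ℕ) (he : 1 ≤ e) (h : Range₁ n m e) :
    IsoAt (X.N m) (X.W m) m e ∧ AgreeFrom (X.N m) (X.W m) m e := by
  refine ⟨isoAt_of X.toSemistableModel m e (key₁ X A m e he h), fun M hM j hj => ?_⟩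
  refine compare_of X.toSemistableModel m e he
    (fun a ha => key₁ X A m a (he.trans ha) ?_) hM j hj
  unfold Range₁ at h ⊢
  omega

end Pool.Agent.Y144.LMW
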